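import Pool.Agent.Y395.RS.Stm

/-!
Project RS: the statement CERT.
-/

set_option autoImplicit false

namespace Pool.Agent.Y86.RS.CERT

open Finset Pool.Agent.Y395.RS

section

variable {V : Type} [Fintype V] [DecidableEq V]

theorem card_preimage {K : Finset V} {ψ : V → V} (hinj : Set.InjOn ψ K)
    (hout : ∀ x, x ∉ K → ψ x = x) (p : V) :
    ((univ : Finset V).filter (fun x => ψ x = p)).card ≤ 2 := by
  classical
  have hsub : (univ : Finset V).filter (fun x => ψ x = p) ⊆
      {p} ∪ K.filter (fun x => ψ x = p) := by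
    intro x hx
    have hx' : ψ x = p := (mem_filter.1 hx).2
    rw [mem_union, mem_singleton, mem_filter]
    by_cases hxK : x ∈ K
    · exact Or.inr ⟨hxK, hx'⟩
    · left
      rw [← hx', hout x hxK]
  have h1 : (K.filter (fun x => ψ x = p)).card ≤ 1 := by
    rw [card_le_one]
    intro a ha b hb
    rw [mem_filter] at ha hb
    exact hinj (mem_coe.2 ha.1) (mem_coe.2 hb.1) (ha.2.trans hb.2.symm)
  have h2 := (card_le_card hsub).trans (card_union_le _ _)
  rw [card_singleton] at h2
  omega

theorem card_preimage_map {K : Finset V} {ψ : V → V} (hinj : Set.InjOn ψ K)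
    (hout : ∀ x, x ∉ K → ψ x = x) (S : Finset (Sym2 V)) (b : Sym2 V) :
    (S.filter (fun a => Sym2.map ψ a = b)).card ≤ 4 := by
  classical
  induction b using Sym2.ind with
  | _ p q =>
    have hsub : S.filter (fun a => Sym2.map ψ a = s(p, q)) ⊆
        (((univ : Finset V).filter (fun x => ψ x = p)) ×ˢ
          ((univ : Finset V).filter (fun x => ψ x = q))).image (fun t => s(t.1, t.2)) := by
      intro a ha
      have ha' : Sym2.map ψ a = s(p, q) := (mem_filter.1 ha).2
      clear ha
      induction a using Sym2.ind with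
      | _ x z =>
        rw [Sym2.map_mk] at ha'
        rw [mem_image]
        rcases Sym2.eq_iff.1 ha' with ⟨h1, h2⟩ | ⟨h1, h2⟩
        · refine ⟨(x, z), ?_, rfl⟩
          rw [mem_product, mem_filter, mem_filter]
          exact ⟨⟨mem_univ _, h1⟩, ⟨mem_univ _, h2⟩⟩
        · refine ⟨(z, x), ?_, Sym2.eq_swap⟩
          rw [mem_product, mem_filter, mem_filter]
          exact ⟨⟨mem_univ _, h2⟩, ⟨mem_univ _, h1⟩⟩
    refine (card_le_card hsub).trans (card_image_le.trans ?_)
    rw [card_product]
    exact Nat.mul_le_mul (card_preimage hinj hout p) (card_preimage hinj hout q)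

end

theorem main (hP : PAIR) : CERT := by
  classical
  intro V _ _ G Q K B ψ d m hKQ hKB hinj hne hout hB hd hm
  set S : Finset (Sym2 V) := (ed G).filter (fun e => ∃ x ∈ K, ∃ z ∈ Q, z ∉ B ∧ s(x, z) = e ∧
    s(ψ x, ψ z) ≠ s(x, z)) with hS
  have hcard : K.card * (d - 3) ≤ S.card * 2 := by
    apply card_mul_le_card_mul (fun (x : V) (e : Sym2 V) => x ∈ e)
    · intro x hx
      -- the good neighbours
      set N : Finset V := (nb G Q x).filter (fun z => z ∉ B ∧ z ≠ ψ x) with hN
      have h1 : (nb G Q x).card ≤ N.card + 3 := by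
        have hsub : nb G Q x ⊆ N ∪ (B ∪ {ψ x}) := by
          intro z hz
          rw [mem_union, mem_union, mem_singleton, hN, mem_filter]
          by_cases h1 : z ∈ B
          · exact Or.inr (Or.inl h1)
          · by_cases h2 : z = ψ x
            · exact Or.inr (Or.inr h2)
            · exact Or.inl ⟨hz, h1, h2⟩
        have h2 := (card_le_card hsub).trans (card_union_le _ _)
        have h3 := card_union_le B {ψ x}
        rw [card_singleton] at h3
        omega
      have h2 : d - 3 ≤ N.card := by
        have := hd x hx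
        omega
      refine h2.trans ?_
      have himg : N.image (fun z => s(x, z)) ⊆ S.bipartiteAbove (fun (x : V) (e : Sym2 V) => x ∈ e) x := by
        intro e he
        obtain ⟨z, hz, rfl⟩ := mem_image.1 he
        rw [hN, mem_filter, mem_nb] at hz
        obtain ⟨⟨hzQ, hadj⟩, hzB, hzψ⟩ := hz
        rw [mem_bipartiteAbove, hS, mem_filter, mem_ed]
        refine ⟨⟨hadj, x, hx, z, hzQ, hzB, rfl, ?_⟩, Sym2.mem_mk_left x z⟩
        intro heq
        rcases Sym2.eq_iff.1 heq with ⟨h3, -⟩ | ⟨h3, -⟩
        · exact hne x hx h3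
        · exact hzψ h3.symm
      refine le_trans (le_of_eq ?_) (card_le_card himg)
      symm
      apply card_image_of_injOn
      intro z1 _ z2 _ h12
      have h12' : s(x, z1) = s(x, z2) := h12
      exact Sym2.congr_right.1 h12'
    · intro e _
      induction e using Sym2.ind with
      | _ p q =>
        have hsub : K.bipartiteBelow (fun (x : V) (e : Sym2 V) => x ∈ e) s(p, q) ⊆ {p, q} := by
          intro x hx
          rw [mem_bipartiteBelow] at hx
          rw [mem_insert, mem_singleton]
          exact Sym2.mem_iff.1 hx.2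
        exact (card_le_card hsub).trans card_le_two
  have hS9 : 9 * m ≤ S.card := by omega
  refine le_trans (cnt_mono ?_) (hP (Sym2 V) (ed G) S (Sym2.map ψ) m (filter_subset _ _) ?_
    (card_preimage_map hinj hout S) hS9)
  · intro F _ hEv a ha haF
    rw [hS, mem_filter] at ha
    obtain ⟨-, x, hx, z, hz, hzB, rfl, -⟩ := ha
    rw [Sym2.map_mk]
    exact hEv x hx z hz hzB haF
  · intro a ha
    rw [hS, mem_filter] at ha
    obtain ⟨-, x, hx, z, hz, hzB, rfl, h⟩ := ha
    rw [Sym2.map_mk]
    exact h

end Pool.Agent.Y86.RS.CERT
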